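import Mathlib
import Pool.Agent.X158.IsoCheck

/-!
# MP_90133a_co, Q1: the conjectured edge-isoperimetric inequality fails in dimension 3

We exhibit 24 planes of `ℝ³` in general position (hence 2325 chambers) and a set `S` of
`1160 = 1 + 19 + C(19,2) + C(19,3)` chambers, at most half of them, whose edge boundary in the
chamber graph has at most `187 < 191 = 1 + 19 + C(19,2)` edges.
-/

namespace Pool.Agent.Results.MP_90133a_co.SkewPencils

open Module Set

/-- The points of `ℝ^d` (with the usual topology). -/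
abbrev E (d : ℕ) : Type := Fin d → ℝ

/-- The set of points `x` with `a · x = b`. -/
def hyper {d : ℕ} (a : E d) (b : ℝ) : Set (E d) := {x | a ⬝ᵥ x = b}

/-- `H` is an affine hyperplane of `ℝ^d`: the solution set of one equation `a · x = b`, `a ≠ 0`. -/
def IsHyperplane {d : ℕ} (H : Set (E d)) : Prop := ∃ (a : E d) (b : ℝ), a ≠ 0 ∧ H = hyper a b

/-- The common points of the sets in `T`. -/
def meetOf {d : ℕ} (T : Finset (Set (E d))) : Set (E d) := {x | ∀ H ∈ T, x ∈ H}

/-- The dimension of the affine span of a set. -/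
noncomputable def dimOf {d : ℕ} (s : Set (E d)) : ℕ := finrank ℝ (vectorSpan ℝ s)

/-- A finite set of affine hyperplanes of `ℝ^d` in general position: for every `m ≤ d`, any `m`
of them meet in a (nonempty) affine subspace of dimension `d - m`, and any `d + 1` of them have
empty intersection.  (An intersection of hyperplanes is an affine subspace.) -/
structure GeneralPosition {d : ℕ} (A : Finset (Set (E d))) : Prop where
  hyperplane : ∀ H ∈ A, IsHyperplane H
  meet : ∀ T ⊆ A, T.card ≤ d → (meetOf T).Nonempty ∧ dimOf (meetOf T) + T.card = d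
  disjoint : ∀ T ⊆ A, T.card = d + 1 → meetOf T = ∅

/-- The complement of the union of the hyperplanes. -/
def complementOf {d : ℕ} (A : Finset (Set (E d))) : Set (E d) := {x | ∀ H ∈ A, x ∉ H}

/-- The chambers: the connected components of the complement of the union. -/
def Chamber {d : ℕ} (A : Finset (Set (E d))) : Type :=
  {C : Set (E d) // ∃ x ∈ complementOf A, connectedComponentIn (complementOf A) x = C}

/-- The hyperplane `H` separates `C` from `C'`: they lie in the two opposite open half-spaces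
bounded by `H`. -/
def Separates {d : ℕ} (H C C' : Set (E d)) : Prop :=
  ∃ (a : E d) (b : ℝ), H = hyper a b ∧ (∀ x ∈ C, b < a ⬝ᵥ x) ∧ ∀ y ∈ C', a ⬝ᵥ y < b

theorem Separates.symm {d : ℕ} {H C C' : Set (E d)} (h : Separates H C C') :
    Separates H C' C := by
  obtain ⟨a, b, rfl, h1, h2⟩ := h
  refine ⟨-a, -b, ?_, fun x hx => ?_, fun x hx => ?_⟩
  · ext x
    simp [hyper]
  · have := h2 x hx
    rw [neg_dotProduct]
    linarith
  · have := h1 x hx
    rw [neg_dotProduct]
    linarith

/-- The chamber graph: two chambers are adjacent when exactly one hyperplane of the arrangement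
separates them. -/
def chamberGraph {d : ℕ} (A : Finset (Set (E d))) : SimpleGraph (Chamber A) where
  Adj C C' := ∃! H, H ∈ A ∧ Separates H C.1 C'.1
  symm := ⟨by
    rintro C C' ⟨H, ⟨hA, hs⟩, hu⟩
    exact ⟨H, ⟨hA, hs.symm⟩, fun H' h' => hu H' ⟨h'.1, h'.2.symm⟩⟩⟩
  loopless := ⟨by
    rintro ⟨C, x, hx, rfl⟩ ⟨H, ⟨-, a, b, -, h1, h2⟩, -⟩
    exact lt_asymm (h1 x (mem_connectedComponentIn hx)) (h2 x (mem_connectedComponentIn hx))⟩

/-- The edge boundary of a set of vertices: the edges with exactly one endpoint in `S`. -/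
def edgeBoundary {V : Type*} (G : SimpleGraph V) (S : Set V) : Set (Sym2 V) :=
  {e ∈ G.edgeSet | ∃ u ∈ S, ∃ v ∉ S, e = s(u, v)}

/-! ### The planes -/

open Pool.Agent.X158.Iso (pl det3 det4 ev kS kN bs tot row dig)

/-- linear part of plane `i` -/
def nrm (i : Fin 24) : E 3 →ₗ[ℝ] ℝ where
  toFun x := ((pl i).1 : ℝ) * x 0 + ((pl i).2.1 : ℝ) * x 1 + ((pl i).2.2.1 : ℝ) * x 2
  map_add' x y := by simp; ring
  map_smul' c x := by simp; ring

/-- the affine function whose zero set is plane `i` -/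
def lin (i : Fin 24) (x : E 3) : ℝ := nrm i x + ((pl i).2.2.2 : ℝ)

theorem nrm_apply (i : Fin 24) (x : E 3) :
    nrm i x = ((pl i).1 : ℝ) * x 0 + ((pl i).2.1 : ℝ) * x 1 + ((pl i).2.2.1 : ℝ) * x 2 := rfl

/-- the normal vector of plane `i` -/
def vec (i : Fin 24) : E 3 := ![((pl i).1 : ℝ), ((pl i).2.1 : ℝ), ((pl i).2.2.1 : ℝ)]

theorem vec_dot (i : Fin 24) (x : E 3) : vec i ⬝ᵥ x = nrm i x := by
  rw [nrm_apply, dotProduct, Fin.sum_univ_three]
  rfl

/-- the `i`-th plane -/
def plane (i : Fin 24) : Set (E 3) := {x | lin i x = 0}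

theorem mem_plane {i : Fin 24} {x : E 3} : x ∈ plane i ↔ lin i x = 0 := Iff.rfl

theorem plane_eq (i : Fin 24) : plane i = hyper (vec i) (-((pl i).2.2.2 : ℝ)) := by
  ext x
  rw [mem_plane, hyper, Set.mem_ofPred_eq, vec_dot, lin]
  constructor <;> intro h <;> linarith

theorem det3_real {i j k : Fin 24} (hij : i < j) (hjk : j < k) :
    ((det3 (pl i) (pl j) (pl k) : ℤ) : ℝ) ≠ 0 := by
  exact_mod_cast Pool.Agent.X158.Iso.triples i j hij k hjk

theorem det4_real {i j k l : Fin 24} (hij : i < j) (hjk : j < k) (hkl : k < l) :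
    ((det4 (pl i) (pl j) (pl k) (pl l) : ℤ) : ℝ) ≠ 0 := by
  exact_mod_cast Pool.Agent.X158.Iso.quads i j hij k hjk l hkl

/-- Three normals: a common zero is the zero vector. -/
theorem ker_triple {i j k : Fin 24} (hij : i < j) (hjk : j < k) {v : E 3}
    (hi : nrm i v = 0) (hj : nrm j v = 0) (hk : nrm k v = 0) : v = 0 := by
  have hD := det3_real hij hjk
  rw [nrm_apply] at hi hj hk
  have e : ((det3 (pl i) (pl j) (pl k) : ℤ) : ℝ) =
      (pl i).1 * ((pl j).2.1 * (pl k).2.2.1 - (pl j).2.2.1 * (pl k).2.1)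
      - (pl i).2.1 * ((pl j).1 * (pl k).2.2.1 - (pl j).2.2.1 * (pl k).1)
      + (pl i).2.2.1 * ((pl j).1 * (pl k).2.1 - (pl j).2.1 * (pl k).1) := by
    simp only [det3]; push_cast; ring
  have h0 : ((det3 (pl i) (pl j) (pl k) : ℤ) : ℝ) * v 0 = 0 := by
    rw [e]
    linear_combination (((pl j).2.1 : ℝ) * (pl k).2.2.1 - (pl j).2.2.1 * (pl k).2.1) * hi
      - (((pl i).2.1 : ℝ) * (pl k).2.2.1 - (pl i).2.2.1 * (pl k).2.1) * hj
      + (((pl i).2.1 : ℝ) * (pl j).2.2.1 - (pl i).2.2.1 * (pl j).2.1) * hk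
  have h1 : ((det3 (pl i) (pl j) (pl k) : ℤ) : ℝ) * v 1 = 0 := by
    rw [e]
    linear_combination -(((pl j).1 : ℝ) * (pl k).2.2.1 - (pl j).2.2.1 * (pl k).1) * hi
      + (((pl i).1 : ℝ) * (pl k).2.2.1 - (pl i).2.2.1 * (pl k).1) * hj
      - (((pl i).1 : ℝ) * (pl j).2.2.1 - (pl i).2.2.1 * (pl j).1) * hk
  have h2 : ((det3 (pl i) (pl j) (pl k) : ℤ) : ℝ) * v 2 = 0 := by
    rw [e]
    linear_combination (((pl j).1 : ℝ) * (pl k).2.1 - (pl j).2.1 * (pl k).1) * hi
      - (((pl i).1 : ℝ) * (pl k).2.1 - (pl i).2.1 * (pl k).1) * hj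
      + (((pl i).1 : ℝ) * (pl j).2.1 - (pl i).2.1 * (pl j).1) * hk
  ext t
  fin_cases t
  · simpa [hD] using h0
  · simpa [hD] using h1
  · simpa [hD] using h2

/-- The affine dependency of four planes. -/
theorem dep (i j k l : Fin 24) (x : E 3) :
    ((det3 (pl i) (pl j) (pl k) : ℤ) : ℝ) * lin l x - ((det3 (pl i) (pl j) (pl l) : ℤ) : ℝ) * lin k x
      + ((det3 (pl i) (pl k) (pl l) : ℤ) : ℝ) * lin j x
      - ((det3 (pl j) (pl k) (pl l) : ℤ) : ℝ) * lin i x
      = ((det4 (pl i) (pl j) (pl k) (pl l) : ℤ) : ℝ) := by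
  simp only [lin, nrm_apply, det4, det3]
  push_cast
  ring

/-! ### General position -/

/-- An increasing enumeration of a three-element index set. -/
theorem triple_of_card {J : Finset (Fin 24)} (h : J.card = 3) :
    ∃ i j k : Fin 24, i < j ∧ j < k ∧ J = {i, j, k} := by
  refine ⟨J.orderEmbOfFin h 0, J.orderEmbOfFin h 1, J.orderEmbOfFin h 2,
    (J.orderEmbOfFin h).strictMono (by decide), (J.orderEmbOfFin h).strictMono (by decide), ?_⟩
  ext x
  have hr : x ∈ J ↔ x ∈ Set.range (J.orderEmbOfFin h) := by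
    rw [Finset.range_orderEmbOfFin]; rfl
  rw [hr]
  simp only [Set.mem_range, Finset.mem_insert, Finset.mem_singleton, Fin.exists_fin_succ]
  simp [eq_comm]

/-- An increasing enumeration of a four-element index set. -/
theorem quad_of_card {J : Finset (Fin 24)} (h : J.card = 4) :
    ∃ i j k l : Fin 24, i < j ∧ j < k ∧ k < l ∧ J = {i, j, k, l} := by
  refine ⟨J.orderEmbOfFin h 0, J.orderEmbOfFin h 1, J.orderEmbOfFin h 2, J.orderEmbOfFin h 3,
    (J.orderEmbOfFin h).strictMono (by decide), (J.orderEmbOfFin h).strictMono (by decide),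
    (J.orderEmbOfFin h).strictMono (by decide), ?_⟩
  ext x
  have hr : x ∈ J ↔ x ∈ Set.range (J.orderEmbOfFin h) := by
    rw [Finset.range_orderEmbOfFin]; rfl
  rw [hr]
  simp only [Set.mem_range, Finset.mem_insert, Finset.mem_singleton, Fin.exists_fin_succ]
  simp [eq_comm]

/-- the normals indexed by `I` as one linear map -/
def nrmMap (I : Finset (Fin 24)) : E 3 →ₗ[ℝ] (I → ℝ) := LinearMap.pi (fun i => nrm i.1)

theorem nrmMap_apply (I : Finset (Fin 24)) (x : E 3) (i : I) : nrmMap I x i = nrm i.1 x := rfl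

theorem surj_triple {J : Finset (Fin 24)} (h : J.card = 3) :
    Function.Surjective (nrmMap J) := by
  obtain ⟨i, j, k, hij, hjk, hJ⟩ := triple_of_card h
  have inj : Function.Injective (nrmMap J) := by
    rw [injective_iff_map_eq_zero]
    intro v hv
    have hi : i ∈ J := by rw [hJ]; simp
    have hj : j ∈ J := by rw [hJ]; simp
    have hk : k ∈ J := by rw [hJ]; simp
    exact ker_triple hij hjk (congrFun hv ⟨i, hi⟩) (congrFun hv ⟨j, hj⟩) (congrFun hv ⟨k, hk⟩)
  exact (LinearMap.injective_iff_surjective_of_finrank_eq_finrank (by simp [h])).1 inj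

theorem surj_of_card_le {I : Finset (Fin 24)} (h : I.card ≤ 3) :
    Function.Surjective (nrmMap I) := by
  obtain ⟨J, hIJ, hJ⟩ := Finset.exists_superset_card_eq h (by simp)
  intro y
  obtain ⟨x, hx⟩ := surj_triple hJ (fun j => if hj : j.1 ∈ I then y ⟨j.1, hj⟩ else 0)
  refine ⟨x, ?_⟩
  ext ⟨i, hi⟩
  have := congrFun hx ⟨i, hIJ hi⟩
  rw [nrmMap_apply] at this ⊢
  rw [this]
  simp [hi]

theorem finrank_ker {I : Finset (Fin 24)} (h : I.card ≤ 3) :
    finrank ℝ (LinearMap.ker (nrmMap I)) + I.card = 3 := by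
  have := LinearMap.finrank_range_add_finrank_ker (nrmMap I)
  rw [LinearMap.range_eq_top.2 (surj_of_card_le h)] at this
  simp at this
  omega

theorem exists_values {I : Finset (Fin 24)} (h : I.card ≤ 3) (y : Fin 24 → ℝ) :
    ∃ x : E 3, ∀ i ∈ I, lin i x = y i := by
  obtain ⟨x, hx⟩ := surj_of_card_le h (fun i => y i.1 - ((pl i.1).2.2.2 : ℝ))
  refine ⟨x, fun i hi => ?_⟩
  have := congrFun hx ⟨i, hi⟩
  rw [nrmMap_apply] at this
  simp only [lin, this]
  ring

theorem plane_injective : Function.Injective plane := by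
  intro i j hij
  by_contra hne
  obtain ⟨x, hx⟩ := exists_values (I := {i, j}) (Finset.card_le_two.trans (by norm_num))
    (fun t => if t = i then 0 else 1)
  have h1 : x ∈ plane i := by rw [mem_plane, hx i (by simp)]; simp
  have h2 : lin j x = 1 := by rw [hx j (by simp)]; simp [Ne.symm hne]
  rw [hij, mem_plane, h2] at h1
  norm_num at h1

/-- the arrangement of the 24 planes -/
def arr : Finset (Set (E 3)) := Finset.univ.map ⟨plane, plane_injective⟩

theorem mem_arr {H : Set (E 3)} : H ∈ arr ↔ ∃ i, plane i = H := by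
  simp [arr]

theorem card_arr : arr.card = 24 := by simp [arr]

theorem exists_index {T : Finset (Set (E 3))} (hT : T ⊆ arr) :
    ∃ I : Finset (Fin 24), T.card = I.card ∧ ∀ H, H ∈ T ↔ ∃ i ∈ I, plane i = H := by
  obtain ⟨I, -, hI⟩ := Finset.subset_map_iff.1 hT
  refine ⟨I, by rw [hI, Finset.card_map], fun H => ?_⟩
  rw [hI, Finset.mem_map]
  rfl

theorem mem_inter {T : Finset (Set (E 3))} {I : Finset (Fin 24)}
    (h : ∀ H, H ∈ T ↔ ∃ i ∈ I, plane i = H) (x : E 3) :
    x ∈ meetOf T ↔ ∀ i ∈ I, lin i x = 0 := by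
  simp only [meetOf, Set.mem_ofPred_eq, h]
  constructor
  · intro hx i hi
    exact hx _ ⟨i, hi, rfl⟩
  · rintro hx H ⟨i, hi, rfl⟩
    exact hx i hi

theorem direction_eq {T : Finset (Set (E 3))} {I : Finset (Fin 24)}
    (h : ∀ H, H ∈ T ↔ ∃ i ∈ I, plane i = H) (hc : I.card ≤ 3) :
    vectorSpan ℝ (meetOf T) = LinearMap.ker (nrmMap I) := by
  obtain ⟨p, hp⟩ := exists_values hc (fun _ => 0)
  have hp' := (mem_inter h p).2 hp
  apply le_antisymm
  · rw [vectorSpan, Submodule.span_le]
    rintro v ⟨x, hx, y, hy, rfl⟩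
    rw [mem_inter h] at hx hy
    rw [SetLike.mem_coe, LinearMap.mem_ker]
    ext ⟨i, hi⟩
    have h1 := hx i hi
    have h2 := hy i hi
    simp only [lin] at h1 h2
    rw [nrmMap_apply]
    simp only [Pi.zero_apply, vsub_eq_sub, map_sub]
    linarith
  · intro v hv
    have hvp : v + p ∈ meetOf T := by
      rw [mem_inter h]
      intro i hi
      have h1 : nrm i v = 0 := congrFun (LinearMap.mem_ker.1 hv) ⟨i, hi⟩
      have h2 := hp i hi
      simp only [lin, map_add] at h2 ⊢
      linarith
    have := vsub_mem_vectorSpan ℝ hvp hp'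
    simpa using this

theorem generalPosition_arr : GeneralPosition arr := by
  refine ⟨?_, ?_, ?_⟩
  · intro H hH
    obtain ⟨i, rfl⟩ := mem_arr.1 hH
    refine ⟨vec i, -((pl i).2.2.2 : ℝ), ?_, plane_eq i⟩
    intro h0
    obtain ⟨x, hx⟩ := exists_values (I := {i}) (by simp) (fun _ => ((pl i).2.2.2 : ℝ) + 1)
    have h1 := hx i (by simp)
    rw [lin, ← vec_dot, h0, zero_dotProduct] at h1
    linarith
  · intro T hT hc
    obtain ⟨I, hI, hm⟩ := exists_index hT
    rw [hI] at hc
    refine ⟨?_, ?_⟩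
    · obtain ⟨p, hp⟩ := exists_values hc (fun _ => 0)
      exact ⟨p, (mem_inter hm p).2 hp⟩
    · rw [dimOf, direction_eq hm hc, hI]
      exact finrank_ker hc
  · intro T hT hc
    obtain ⟨I, hI, hm⟩ := exists_index hT
    obtain ⟨i, j, k, l, hij, hjk, hkl, rfl⟩ := quad_of_card (hI ▸ hc)
    rw [Set.eq_empty_iff_forall_notMem]
    intro x hx
    rw [mem_inter hm] at hx
    have hd := dep i j k l x
    rw [hx i (by simp), hx j (by simp), hx k (by simp), hx l (by simp)] at hd
    exact det4_real hij hjk hkl (by simpa using hd.symm)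

/-! ### Chambers -/

theorem mem_compl {x : E 3} : x ∈ complementOf arr ↔ ∀ i, lin i x ≠ 0 := by
  simp only [complementOf, Set.mem_ofPred_eq, mem_arr]
  constructor
  · intro h i hi
    exact h _ ⟨i, rfl⟩ hi
  · rintro h H ⟨i, rfl⟩ hx
    exact h i hx

/-- the region on which exactly the planes of `u` are positive, and the others negative -/
def reg (u : Finset (Fin 24)) : Set (E 3) :=
  {x | ∀ i, (i ∈ u → 0 < lin i x) ∧ (i ∉ u → lin i x < 0)}

/-- the sign set of a point -/
noncomputable def sgn (x : E 3) : Finset (Fin 24) := by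
  classical exact Finset.univ.filter (fun i => 0 < lin i x)

theorem mem_sgn {x : E 3} {i : Fin 24} : i ∈ sgn x ↔ 0 < lin i x := by
  simp [sgn]

theorem mem_reg_sgn {x : E 3} (hx : x ∈ complementOf arr) : x ∈ reg (sgn x) := by
  intro i
  refine ⟨fun h => mem_sgn.1 h, fun h => ?_⟩
  rw [mem_sgn, not_lt] at h
  exact lt_of_le_of_ne h (mem_compl.1 hx i)

theorem sgn_of_mem_reg {x : E 3} {u : Finset (Fin 24)} (hx : x ∈ reg u) : sgn x = u := by
  ext i
  rw [mem_sgn]
  by_cases hi : i ∈ u
  · simp [hi, (hx i).1 hi]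
  · simp [hi, (hx i).2 hi |>.le]

theorem reg_subset (u : Finset (Fin 24)) : reg u ⊆ complementOf arr := by
  intro x hx
  rw [mem_compl]
  intro i
  by_cases hi : i ∈ u
  · exact ((hx i).1 hi).ne'
  · exact ((hx i).2 hi).ne

theorem lin_combo (i : Fin 24) (x y : E 3) {a b : ℝ} (hab : a + b = 1) :
    lin i (a • x + b • y) = a * lin i x + b * lin i y := by
  simp only [lin, map_add, map_smul, smul_eq_mul]
  linear_combination (-((pl i).2.2.2 : ℝ)) * hab

theorem convex_reg (u : Finset (Fin 24)) : Convex ℝ (reg u) := by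
  intro x hx y hy a b ha hb hab i
  rw [lin_combo i x y hab]
  rcases eq_or_lt_of_le ha with rfl | ha'
  · have hb1 : b = 1 := by linarith
    subst hb1
    simpa using hy i
  · refine ⟨fun hi => ?_, fun hi => ?_⟩
    · have h1 := mul_pos ha' ((hx i).1 hi)
      have h2 := mul_nonneg hb ((hy i).1 hi).le
      linarith
    · have h1 := mul_neg_of_pos_of_neg ha' ((hx i).2 hi)
      have h2 := mul_nonpos_of_nonneg_of_nonpos hb ((hy i).2 hi).le
      linarith

theorem continuous_lin (i : Fin 24) : Continuous (lin i) := by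
  have : Continuous (nrm i) := LinearMap.continuous_of_finiteDimensional _
  exact this.add continuous_const

/-- The chamber of a point is the region of its sign set. -/
theorem component_eq {x : E 3} (hx : x ∈ complementOf arr) :
    connectedComponentIn (complementOf arr) x = reg (sgn x) := by
  apply Set.Subset.antisymm
  · intro y hy
    have hpre : IsPreconnected (connectedComponentIn (complementOf arr) x) :=
      isPreconnected_connectedComponentIn
    have hxC := mem_connectedComponentIn hx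
    have hsub := connectedComponentIn_subset (complementOf arr) x
    have key : ∀ i, (0 < lin i x → 0 < lin i y) ∧ (lin i x < 0 → lin i y < 0) := by
      intro i
      refine ⟨fun h => ?_, fun h => ?_⟩
      · by_contra hn
        obtain ⟨z, hz, hz0⟩ := hpre.intermediate_value hy hxC (continuous_lin i).continuousOn
          ⟨not_lt.1 hn, h.le⟩
        exact mem_compl.1 (hsub hz) i hz0
      · by_contra hn
        obtain ⟨z, hz, hz0⟩ := hpre.intermediate_value hxC hy (continuous_lin i).continuousOn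
          ⟨h.le, not_lt.1 hn⟩
        exact mem_compl.1 (hsub hz) i hz0
    intro i
    refine ⟨fun hi => (key i).1 (mem_sgn.1 hi), fun hi => (key i).2 ?_⟩
    exact (mem_reg_sgn hx i).2 hi
  · exact (convex_reg _).isPreconnected.subset_connectedComponentIn (mem_reg_sgn hx)
      (reg_subset _)

/-! ### Counting the chambers -/

/-- the family of the sign sets of the chambers -/
noncomputable def fam : Finset (Finset (Fin 24)) := by
  classical exact Finset.univ.filter (fun u => (reg u).Nonempty)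

theorem mem_fam {u : Finset (Fin 24)} : u ∈ fam ↔ (reg u).Nonempty := by
  simp [fam]

theorem not_shatters {J : Finset (Fin 24)} (hJ : J.card = 4) : ¬ fam.Shatters J := by
  obtain ⟨i, j, k, l, hij, hjk, hkl, hJ'⟩ := quad_of_card hJ
  intro hs
  set D : ℝ := ((det4 (pl i) (pl j) (pl k) (pl l) : ℤ) : ℝ) with hD
  have hD0 : D ≠ 0 := det4_real hij hjk hkl
  let c : Fin 24 → ℝ := fun m =>
    if m = i then -((det3 (pl j) (pl k) (pl l) : ℤ) : ℝ)
    else if m = j then ((det3 (pl i) (pl k) (pl l) : ℤ) : ℝ)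
    else if m = k then -((det3 (pl i) (pl j) (pl l) : ℤ) : ℝ)
    else ((det3 (pl i) (pl j) (pl k) : ℤ) : ℝ)
  obtain ⟨u, hu, hut⟩ := hs (Finset.filter_subset (fun m => c m * D < 0) J)
  obtain ⟨x, hx⟩ := mem_fam.1 hu
  have key : ∀ m ∈ J, c m * D * lin m x ≤ 0 := by
    intro m hm
    by_cases h : c m * D < 0
    · have h1 : m ∈ J ∩ u := by rw [hut]; exact Finset.mem_filter.2 ⟨hm, h⟩
      exact (mul_neg_of_neg_of_pos h ((hx m).1 (Finset.mem_inter.1 h1).2)).le
    · have h1 : m ∉ u := by
        intro hmu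
        have h2 : m ∈ J ∩ u := Finset.mem_inter.2 ⟨hm, hmu⟩
        rw [hut] at h2
        exact h (Finset.mem_filter.1 h2).2
      exact mul_nonpos_of_nonneg_of_nonpos (not_lt.1 h) ((hx m).2 h1).le
  have ki := key i (by rw [hJ']; simp)
  have kj := key j (by rw [hJ']; simp)
  have kk := key k (by rw [hJ']; simp)
  have kl := key l (by rw [hJ']; simp)
  have hji : j ≠ i := hij.ne'
  have hki : k ≠ i := (hij.trans hjk).ne'
  have hkj : k ≠ j := hjk.ne'
  have hli : l ≠ i := (hij.trans (hjk.trans hkl)).ne'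
  have hlj : l ≠ j := (hjk.trans hkl).ne'
  have hlk : l ≠ k := hkl.ne'
  simp only [c, if_true, if_neg hji, if_neg hki, if_neg hkj, if_neg hli, if_neg hlj,
    if_neg hlk] at ki kj kk kl
  have hd := dep i j k l x
  rw [← hD] at hd
  have hpos : 0 < D * D := mul_self_pos.2 hD0
  have : D * D = (-((det3 (pl j) (pl k) (pl l) : ℤ) : ℝ)) * D * lin i x
      + ((det3 (pl i) (pl k) (pl l) : ℤ) : ℝ) * D * lin j x
      + (-((det3 (pl i) (pl j) (pl l) : ℤ) : ℝ)) * D * lin k x
      + ((det3 (pl i) (pl j) (pl k) : ℤ) : ℝ) * D * lin l x := by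
    linear_combination (-D) * hd
  linarith

theorem card_fam_le : fam.card ≤ 2325 := by
  have hv : fam.vcDim ≤ 3 := by
    apply Finset.sup_le
    intro s hs
    rw [Finset.mem_shatterer] at hs
    by_contra hc
    obtain ⟨J, hJs, hJ⟩ := Finset.exists_subset_card_eq (show 4 ≤ s.card by omega)
    exact not_shatters hJ (hs.mono_right hJs)
  calc fam.card ≤ fam.shatterer.card := Finset.card_le_card_shatterer _
    _ ≤ ∑ k ∈ Finset.Iic fam.vcDim, (Fintype.card (Fin 24)).choose k :=
        Finset.card_shatterer_le_sum_vcDim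
    _ ≤ ∑ k ∈ Finset.Iic 3, (Fintype.card (Fin 24)).choose k :=
        Finset.sum_le_sum_of_subset (Finset.Iic_subset_Iic.2 hv)
    _ = 2325 := by rw [Fintype.card_fin]; decide +kernel

/-- the sign set with bit mask `m` -/
def toSet (m : ℕ) : Finset (Fin 24) := Finset.univ.filter (fun i => m.testBit i = true)

theorem mem_toSet {m : ℕ} {i : Fin 24} : i ∈ toSet m ↔ m.testBit i = true := by
  simp [toSet]

theorem toSet_injOn {m m' : ℕ} (hm : m < 2 ^ 24) (hm' : m' < 2 ^ 24) (h : toSet m = toSet m') :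
    m = m' := by
  apply Nat.eq_of_testBit_eq
  intro i
  by_cases hi : i < 24
  · have := Finset.ext_iff.1 h ⟨i, hi⟩
    rw [mem_toSet, mem_toSet] at this
    exact Bool.eq_iff_iff.2 this
  · rw [Nat.testBit_lt_two_pow (lt_of_lt_of_le hm (Nat.pow_le_pow_right (by norm_num)
        (not_lt.1 hi))), Nat.testBit_lt_two_pow (lt_of_lt_of_le hm' (Nat.pow_le_pow_right
        (by norm_num) (not_lt.1 hi)))]

theorem nonempty_of_okPt {m c : ℕ} (h : Pool.Agent.X158.Iso.okPt m c = true) :
    (reg (toSet m)).Nonempty := by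
  simp only [Pool.Agent.X158.Iso.okPt, Bool.and_eq_true, decide_eq_true_eq] at h
  obtain ⟨hW, h⟩ := h
  generalize Pool.Agent.X158.Iso.cX c = X at h
  generalize Pool.Agent.X158.Iso.cY c = Y at h
  generalize Pool.Agent.X158.Iso.cZ c = Z at h
  generalize Pool.Agent.X158.Iso.cW c = W at h hW
  have hW' : (0 : ℝ) < W := by exact_mod_cast hW
  refine ⟨![(X : ℝ) / W, (Y : ℝ) / W, (Z : ℝ) / W], fun i => ?_⟩
  have hl : lin i (![(X : ℝ) / W, (Y : ℝ) / W, (Z : ℝ) / W]) =
      ((ev (pl i) X Y Z W : ℤ) : ℝ) / W := by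
    simp only [lin, nrm_apply, ev]
    push_cast
    field_simp
  rw [hl, mem_toSet]
  have hi := h i
  refine ⟨fun hb => ?_, fun hb => ?_⟩
  · rw [if_pos hb] at hi
    exact div_pos (by exact_mod_cast hi) hW'
  · rw [if_neg hb] at hi
    exact div_neg_of_neg_of_pos (by exact_mod_cast hi) hW'

theorem lt_of_steps {f : ℕ → ℕ} {n : ℕ} (h : ∀ j < n, f j < f (j + 1)) {a b : ℕ} (hab : a < b)
    (hb : b ≤ n) : f a < f b := by
  induction b with
  | zero => omega
  | succ b ih =>
    rcases Nat.lt_succ_iff_lt_or_eq.1 hab with h1 | h1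
    · exact (ih h1 (by omega)).trans (h b (by omega))
    · rw [h1]; exact h b (by omega)

theorem inj_of_steps {f : ℕ → ℕ} {n : ℕ} (h : ∀ j < n, f j < f (j + 1)) {a b : ℕ} (ha : a ≤ n)
    (hb : b ≤ n) (hab : f a = f b) : a = b := by
  rcases lt_trichotomy a b with h1 | h1 | h1
  · exact absurd (lt_of_steps h h1 hb) (by omega)
  · exact h1
  · exact absurd (lt_of_steps h h1 ha) (by omega)

theorem kS_lt (j : ℕ) : kS j < 2 ^ 24 := Nat.mod_lt _ (by norm_num)

theorem kN_lt {j : ℕ} (hj : j < 1165) : kN j < 2 ^ 24 := by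
  unfold kN
  rw [if_pos hj]
  exact Nat.mod_lt _ (by norm_num)

/-- sign sets of the chambers in `S` -/
def famS : Finset (Finset (Fin 24)) := (Finset.range 1160).image (fun j => toSet (kS j))

/-- sign sets of the other chambers -/
def famN : Finset (Finset (Fin 24)) := (Finset.range 1165).image (fun j => toSet (kN j))

theorem card_famS : famS.card = 1160 := by
  rw [famS, Finset.card_image_of_injOn, Finset.card_range]
  intro a ha b hb hab
  simp only [Finset.coe_range, Set.mem_Iio] at ha hb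
  exact inj_of_steps Pool.Agent.X158.Iso.sortS (by omega) (by omega)
    (toSet_injOn (kS_lt a) (kS_lt b) hab)

theorem card_famN : famN.card = 1165 := by
  rw [famN, Finset.card_image_of_injOn, Finset.card_range]
  intro a ha b hb hab
  simp only [Finset.coe_range, Set.mem_Iio] at ha hb
  exact inj_of_steps Pool.Agent.X158.Iso.sortN (by omega) (by omega)
    (toSet_injOn (kN_lt ha) (kN_lt hb) hab)

theorem disjoint_fam : Disjoint famS famN := by
  rw [Finset.disjoint_left]
  intro u hS hN
  obtain ⟨a, ha, rfl⟩ := Finset.mem_image.1 hS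
  obtain ⟨b, hb, hab⟩ := Finset.mem_image.1 hN
  rw [Finset.mem_range] at ha hb
  have h := toSet_injOn (kN_lt hb) (kS_lt a) hab
  have h1 := Pool.Agent.X158.Iso.bsS a ha
  have h2 := Pool.Agent.X158.Iso.bsN b hb
  rw [h, h1] at h2
  exact Bool.false_ne_true h2

theorem famS_subset : famS ⊆ fam := by
  intro u hu
  obtain ⟨a, ha, rfl⟩ := Finset.mem_image.1 hu
  exact mem_fam.2 (nonempty_of_okPt (Pool.Agent.X158.Iso.ptsS a (Finset.mem_range.1 ha)))

theorem famN_subset : famN ⊆ fam := by
  intro u hu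
  obtain ⟨a, ha, rfl⟩ := Finset.mem_image.1 hu
  exact mem_fam.2 (nonempty_of_okPt (Pool.Agent.X158.Iso.ptsN a (Finset.mem_range.1 ha)))

theorem fam_eq : famS ∪ famN = fam := by
  apply Finset.eq_of_subset_of_card_le (Finset.union_subset famS_subset famN_subset)
  rw [Finset.card_union_of_disjoint disjoint_fam, card_famS, card_famN]
  exact card_fam_le

theorem card_fam : fam.card = 2325 := by
  rw [← fam_eq, Finset.card_union_of_disjoint disjoint_fam, card_famS, card_famN]

/-! ### The chambers as regions -/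

/-- the chamber with a given sign set -/
def mkCh (u : Finset (Fin 24)) (hu : (reg u).Nonempty) : Chamber arr :=
  ⟨reg u, by
    obtain ⟨x, hx⟩ := hu
    refine ⟨x, reg_subset u hx, ?_⟩
    rw [component_eq (reg_subset u hx), sgn_of_mem_reg hx]⟩

instance : Nonempty (Chamber arr) :=
  ⟨mkCh _ (nonempty_of_okPt (Pool.Agent.X158.Iso.ptsS 0 (by norm_num)))⟩

/-- the chamber with a given sign set, total version -/
noncomputable def chOf (u : Finset (Fin 24)) : Chamber arr := by
  classical exact if h : (reg u).Nonempty then mkCh u h else Classical.arbitrary _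

theorem chOf_val {u : Finset (Fin 24)} (hu : u ∈ fam) : (chOf u).1 = reg u := by
  unfold chOf
  rw [dif_pos (mem_fam.1 hu)]
  rfl

theorem reg_injOn {u v : Finset (Fin 24)} (hu : u ∈ fam) (h : reg u = reg v) : u = v := by
  obtain ⟨x, hx⟩ := mem_fam.1 hu
  rw [← sgn_of_mem_reg hx]
  exact sgn_of_mem_reg (h ▸ hx)

theorem chOf_injOn : Set.InjOn chOf (fam : Set (Finset (Fin 24))) := by
  intro u hu v hv h
  have := congrArg Subtype.val h
  rw [chOf_val hu, chOf_val hv] at this
  exact reg_injOn hu this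

theorem exists_chOf (C : Chamber arr) : ∃ u ∈ fam, C = chOf u := by
  obtain ⟨C, x, hx, rfl⟩ := C
  have hu : sgn x ∈ fam := mem_fam.2 ⟨x, mem_reg_sgn hx⟩
  refine ⟨sgn x, hu, Subtype.ext ?_⟩
  rw [chOf_val hu]
  exact component_eq hx

theorem image_fam : chOf '' (fam : Set (Finset (Fin 24))) = Set.univ := by
  rw [Set.eq_univ_iff_forall]
  intro C
  obtain ⟨u, hu, rfl⟩ := exists_chOf C
  exact ⟨u, hu, rfl⟩

theorem card_chamber : Nat.card (Chamber arr) = 2325 := by
  rw [← Set.ncard_univ, ← image_fam, chOf_injOn.ncard_image, Set.ncard_coe_finset, card_fam]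

/-- the set `S` of 1160 chambers -/
def S : Set (Chamber arr) := chOf '' (famS : Set (Finset (Fin 24)))

theorem ncard_S : S.ncard = 1160 := by
  rw [S, (chOf_injOn.mono (by exact_mod_cast famS_subset)).ncard_image,
    Set.ncard_coe_finset, card_famS]

/-! ### The boundary -/

theorem separates_of_lin {i : Fin 24} {C C' : Set (E 3)} (h1 : ∀ x ∈ C, 0 < lin i x)
    (h2 : ∀ y ∈ C', lin i y < 0) : Separates (plane i) C C' := by
  refine ⟨vec i, -((pl i).2.2.2 : ℝ), plane_eq i, fun x hx => ?_, fun x hx => ?_⟩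
  · have := h1 x hx
    rw [vec_dot]
    rw [lin] at this
    linarith
  · have := h2 x hx
    rw [vec_dot]
    rw [lin] at this
    linarith

/-- A plane whose index lies in exactly one of the two sign sets separates the regions. -/
theorem separates_of_symmDiff {i : Fin 24} {u v : Finset (Fin 24)} (h : i ∈ symmDiff u v) :
    Separates (plane i) (reg u) (reg v) := by
  rcases Finset.mem_symmDiff.1 h with ⟨h1, h2⟩ | ⟨h1, h2⟩
  · exact separates_of_lin (fun x hx => (hx i).1 h1) (fun y hy => (hy i).2 h2)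
  · exact (separates_of_lin (fun x hx => (hx i).1 h1) (fun y hy => (hy i).2 h2)).symm

theorem exists_eq_of_adj {u v : Finset (Fin 24)} (hu : u ∈ fam) (hv : v ∈ fam) (hne : u ≠ v)
    (h : (chamberGraph arr).Adj (chOf u) (chOf v)) : ∃ i : Fin 24, v = symmDiff u {i} := by
  obtain ⟨H, -, hH⟩ := h
  rw [chOf_val hu, chOf_val hv] at hH
  have huniq : ∀ i ∈ symmDiff u v, plane i = H := fun i hi =>
    hH (plane i) ⟨mem_arr.2 ⟨i, rfl⟩, separates_of_symmDiff hi⟩
  obtain ⟨i, hi⟩ : (symmDiff u v).Nonempty := by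
    rw [Finset.nonempty_iff_ne_empty, Ne, ← Finset.bot_eq_empty, symmDiff_eq_bot]
    exact hne
  refine ⟨i, ?_⟩
  have hs : symmDiff u v = {i} := by
    apply Finset.eq_singleton_iff_unique_mem.2 ⟨hi, fun j hj => ?_⟩
    exact plane_injective ((huniq j hj).trans (huniq i hi).symm)
  rw [← hs, symmDiff_symmDiff_cancel_left]

theorem toSet_xor (m : ℕ) (i : Fin 24) :
    toSet (m ^^^ 2 ^ (i : ℕ)) = symmDiff (toSet m) {i} := by
  ext j
  rw [Finset.mem_symmDiff, mem_toSet, mem_toSet, Finset.mem_singleton, Nat.testBit_xor,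
    Nat.testBit_two_pow]
  by_cases hij : j = i
  · subst hij
    simp
  · have : (i : ℕ) ≠ (j : ℕ) := fun h => hij (Fin.ext h.symm)
    simp [hij, this]

/-- the pairs `(j, i)` such that flipping plane `i` in chamber `j` of `S` leaves `S` -/
def pairs : Finset (ℕ × ℕ) :=
  ((Finset.range 1160) ×ˢ (Finset.range 24)).filter
    (fun p => bs 11 0 (kS p.1 ^^^ 2 ^ p.2) = true)

theorem tot_eq (n : ℕ) : tot n = ∑ j ∈ Finset.range n, row j := by
  induction n with
  | zero => rfl
  | succ n ih => rw [Finset.sum_range_succ, ← ih]; rfl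

theorem row_eq (j : ℕ) :
    row j = ((Finset.range 24).filter (fun i => bs 11 0 (kS j ^^^ 2 ^ i) = true)).card := by
  rw [Finset.card_def, Finset.filter_val, Finset.range_val, Multiset.range, Multiset.filter_coe,
    Multiset.coe_card]
  simp [row]

theorem card_pairs : pairs.card ≤ 187 := by
  have : pairs.card = tot 1160 := by
    rw [tot_eq, pairs, Finset.card_filter, Finset.sum_product]
    apply Finset.sum_congr rfl
    intro j _
    rw [row_eq, Finset.card_filter]
  rw [this]
  exact Pool.Agent.X158.Iso.tot_le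

theorem boundary_subset :
    edgeBoundary (chamberGraph arr) S ⊆
      (fun p : ℕ × ℕ => s(chOf (toSet (kS p.1)), chOf (toSet (kS p.1 ^^^ 2 ^ p.2)))) ''
        (pairs : Set (ℕ × ℕ)) := by
  rintro e ⟨he, C, hC, C', hC', rfl⟩
  rw [SimpleGraph.mem_edgeSet] at he
  obtain ⟨u, huS, rfl⟩ := hC
  obtain ⟨v, hv, rfl⟩ := exists_chOf C'
  have huS' : u ∈ famS := by exact_mod_cast huS
  have hu : u ∈ fam := famS_subset huS'
  have hvS : v ∉ famS := fun h => hC' ⟨v, by exact_mod_cast h, rfl⟩
  have hvN : v ∈ famN := by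
    have : v ∈ famS ∪ famN := by rw [fam_eq]; exact hv
    exact (Finset.mem_union.1 this).resolve_left hvS
  have hne : u ≠ v := fun h => hvS (h ▸ huS')
  obtain ⟨i, hi⟩ := exists_eq_of_adj hu hv hne he
  obtain ⟨a, ha, rfl⟩ := Finset.mem_image.1 huS'
  obtain ⟨b, hb, hb'⟩ := Finset.mem_image.1 hvN
  rw [Finset.mem_range] at ha hb
  rw [← toSet_xor] at hi
  have hk : kN b = kS a ^^^ 2 ^ (i : ℕ) := by
    apply toSet_injOn (kN_lt hb)
    · exact Nat.xor_lt_two_pow (kS_lt a) (Nat.pow_lt_pow_right (by norm_num) i.2)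
    · rw [← hi]; exact hb'
  refine ⟨(a, (i : ℕ)), ?_, ?_⟩
  · simp only [pairs, Finset.coe_filter, Finset.mem_product, Finset.mem_range, Set.mem_ofPred_eq]
    refine ⟨⟨ha, i.2⟩, ?_⟩
    rw [← hk]
    exact Pool.Agent.X158.Iso.bsN b hb
  · simp only [hi]

theorem ncard_boundary : (edgeBoundary (chamberGraph arr) S).ncard ≤ 187 := by
  refine (Set.ncard_le_ncard boundary_subset ((Finset.finite_toSet _).image _)).trans ?_
  refine (Set.ncard_image_le (Finset.finite_toSet _)).trans ?_
  rw [Set.ncard_coe_finset]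
  exact card_pairs

/-- **Main result.** There are a set `A` of 24 planes of `ℝ³` in general position, which has 2325
chambers, and a set `S` of at most half of the chambers with
`|S| = ∑_{i ≤ 3} C(19, i)` (which is 1160) whose edge boundary in the chamber graph has at most
187 edges, strictly fewer than `∑_{i ≤ 2} C(19, i)` (which is 191).  So the inequality of Q1
fails for `d = 3` (and `k = 19`). -/
theorem result :
    ∃ (A : Finset (Set (E 3))) (S : Set (Chamber A)),
      GeneralPosition A ∧ A.card = 24 ∧ Nat.card (Chamber A) = 2325 ∧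
        2 * S.ncard ≤ Nat.card (Chamber A) ∧
        S.ncard = ∑ i ∈ Finset.range (3 + 1), Nat.choose 19 i ∧
        (edgeBoundary (chamberGraph A) S).ncard ≤ 187 ∧
        (edgeBoundary (chamberGraph A) S).ncard < ∑ i ∈ Finset.range 3, Nat.choose 19 i := by
  refine ⟨arr, S, generalPosition_arr, card_arr, card_chamber, ?_, ?_, ncard_boundary, ?_⟩
  · rw [ncard_S, card_chamber]
    norm_num
  · rw [ncard_S]
    decide +kernel
  · refine lt_of_le_of_lt ncard_boundary ?_
    decide +kernel

end Pool.Agent.Results.MP_90133a_co.SkewPencils
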